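import Mathlib

set_option autoImplicit false

/-!
# The rank of incidence vectors and the rank function of a graphic matroid
-/

namespace Pool.Agent.H972R2.CG

open Finset

section incidence

variable {V ι : Type*} [Fintype V] [DecidableEq V]

/-- the incidence vector of an edge -/
def iv (ends : ι → V × V) (e : ι) : V → ℚ := Pi.single (ends e).1 (1 : ℚ) - Pi.single (ends e).2 (1 : ℚ)

/-- the simple graph of a set of edges -/
def gr (ends : ι → V × V) (Y : Set ι) : SimpleGraph V :=
  SimpleGraph.fromRel (fun u v : V => ∃ f ∈ Y, ends f = (u, v))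

theorem iv_dot (ends : ι → V × V) (e : ι) (f : V → ℚ) :
    iv ends e ⬝ᵥ f = f (ends e).1 - f (ends e).2 := by
  unfold iv
  rw [sub_dotProduct, single_dotProduct, single_dotProduct, one_mul, one_mul]

theorem const_of_reach (ends : ι → V × V) (Y : Set ι) (f : V → ℚ)
    (hf : ∀ e ∈ Y, f (ends e).1 = f (ends e).2) {u v : V} (h : (gr ends Y).Reachable u v) :
    f u = f v := by
  obtain ⟨w⟩ := h
  induction w with
  | nil => rfl
  | cons hadj _ ih =>
    rw [← ih]
    unfold gr at hadj
    rw [SimpleGraph.fromRel_adj] at hadj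
    obtain ⟨_, ⟨e, he, hee⟩ | ⟨e, he, hee⟩⟩ := hadj
    · have := hf e he
      rw [hee] at this
      exact this
    · have := hf e he
      rw [hee] at this
      exact this.symm

theorem reach_ends (ends : ι → V × V) (Y : Set ι) {e : ι} (he : e ∈ Y) :
    (gr ends Y).Reachable (ends e).1 (ends e).2 := by
  by_cases h : (ends e).1 = (ends e).2
  · rw [h]
  · apply SimpleGraph.Adj.reachable
    unfold gr
    rw [SimpleGraph.fromRel_adj]
    exact ⟨h, Or.inl ⟨e, he, rfl⟩⟩

/-- the rank of the incidence vectors -/
theorem rank_iv (ends : ι → V × V) (Y : Set ι) (hY : Y.Finite) :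
    Module.finrank ℚ (Submodule.span ℚ (iv ends '' Y)) +
      Nat.card (gr ends Y).ConnectedComponent = Fintype.card V := by
  classical
  haveI : Finite Y := hY
  haveI : Fintype Y := Fintype.ofFinite Y
  set A : Matrix Y V ℚ := fun e => iv ends e.1 with hA
  have h1 : A.rank = Module.finrank ℚ (Submodule.span ℚ (iv ends '' Y)) := by
    rw [Matrix.rank_eq_finrank_span_row, Set.image_eq_range]
    rfl
  have h2 := LinearMap.finrank_range_add_finrank_ker A.mulVecLin
  rw [Module.finrank_pi] at h2
  have h3 : Module.finrank ℚ (LinearMap.range A.mulVecLin) = A.rank := rfl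
  set c := (gr ends Y).connectedComponentMk with hc
  have hcs : Function.Surjective c := Quot.mk_surjective
  have h4 : LinearMap.ker A.mulVecLin = LinearMap.range (LinearMap.funLeft ℚ ℚ c) := by
    ext f
    rw [LinearMap.mem_ker, LinearMap.mem_range]
    constructor
    · intro hf
      have hf' : ∀ e ∈ Y, f (ends e).1 = f (ends e).2 := by
        intro e he
        have := congrFun hf ⟨e, he⟩
        have e1 : (A.mulVecLin f) ⟨e, he⟩ = iv ends e ⬝ᵥ f := rfl
        rw [e1, iv_dot] at this
        simpa [sub_eq_zero] using this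
      refine ⟨fun q => Quot.lift f (fun u v huv => const_of_reach ends Y f hf' huv) q, ?_⟩
      funext v
      rfl
    · rintro ⟨g, rfl⟩
      funext e
      have e1 : (A.mulVecLin (LinearMap.funLeft ℚ ℚ c g)) e =
        iv ends e.1 ⬝ᵥ (LinearMap.funLeft ℚ ℚ c g) := rfl
      rw [e1, iv_dot, LinearMap.funLeft_apply, LinearMap.funLeft_apply]
      have e2 : c (ends e.1).1 = c (ends e.1).2 :=
        SimpleGraph.ConnectedComponent.eq.2 (reach_ends ends Y e.2)
      rw [e2, sub_self]
      rfl
  haveI : Finite (gr ends Y).ConnectedComponent := Finite.of_surjective c hcs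
  haveI : Fintype (gr ends Y).ConnectedComponent := Fintype.ofFinite _
  have h5 : Module.finrank ℚ (LinearMap.ker A.mulVecLin) =
      Nat.card (gr ends Y).ConnectedComponent := by
    rw [h4, LinearMap.finrank_range_of_inj (LinearMap.funLeft_injective_of_surjective ℚ ℚ c hcs),
      Module.finrank_pi, Nat.card_eq_fintype_card]
  rw [← h1, ← h5, ← h3, h2]

end incidence

section matroid

variable {α W : Type*} [AddCommGroup W] [Module ℚ W] [FiniteDimensional ℚ W]

/-- the rank function of a represented matroid -/
theorem eRk_rep (N : Matroid α) (v : α → W)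
    (hN : ∀ I : Set α, N.Indep I ↔ (I ⊆ N.E ∧ LinearIndependent ℚ (fun x : I => v x)))
    (X : Set α) (hX : X ⊆ N.E) (hXf : X.Finite) :
    N.eRk X = (Module.finrank ℚ (Submodule.span ℚ (v '' X)) : ℕ∞) := by
  obtain ⟨I, hI⟩ := N.exists_isBasis X
  have hIX := hI.subset
  have hIf : I.Finite := hXf.subset hIX
  have hli : LinearIndepOn ℚ v I := ((hN I).1 hI.indep).2
  have hspan : Submodule.span ℚ (v '' X) = Submodule.span ℚ (v '' I) := by
    apply le_antisymm
    · rw [Submodule.span_le]
      rintro _ ⟨e, he, rfl⟩
      by_cases heI : e ∈ I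
      · exact Submodule.subset_span ⟨e, heI, rfl⟩
      · by_contra hns
        have h1 : LinearIndepOn ℚ v (insert e I) := by
          rw [linearIndepOn_insert heI]
          exact ⟨hli, hns⟩
        have h2 : N.Indep (insert e I) := by
          rw [hN]
          exact ⟨Set.insert_subset (hX he) (hIX.trans hX), h1⟩
        exact heI (hI.mem_of_insert_indep he h2)
    · exact Submodule.span_mono (Set.image_mono hIX)
  haveI : Finite I := hIf
  haveI : Fintype I := Fintype.ofFinite I
  rw [hI.eRk_eq_encard, hspan, Set.image_eq_range,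
    finrank_span_eq_card (b := fun x : I => v x) hli, ← Nat.card_eq_fintype_card,
    ← hIf.cast_ncard_eq]
  rfl

end matroid

end Pool.Agent.H972R2.CG
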