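import Mathlib
import Pool.Agent.H972R2.CG.Rank
import Pool.Agent.H753R2.FR.T_D6b

set_option autoImplicit false

/-!
# The characteristic polynomial of a cographic matroid is a flow polynomial
-/

namespace Pool.Agent.H972R2.CG

open Finset

theorem gr_map {V ι κ : Type*} (ends : ι → V × V) (j : κ ↪ ι) (A : Finset κ) :
    SimpleGraph.fromRel (fun u v : V => ∃ f ∈ A, (fun i => ends (j i)) f = (u, v)) =
      gr ends ((A.map j : Finset ι) : Set ι) := by
  unfold gr
  congr 1
  funext u v
  simp

/-- the rank function of the matroid whose dual is graphic -/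
theorem char_eq {α : Type*} (M : Matroid α) (E : Finset α) (hE : (E : Set α) = M.E) {n : ℕ}
    (ends : α → Fin n × Fin n)
    (hM : ∀ I : Set α, M✶.Indep I ↔ (I ⊆ M.E ∧ LinearIndependent ℚ (fun x : I => iv ends x.1)))
    (X : Finset α) (hX : X ⊆ E) :
    (M.eRk M.E).toNat - (M.eRk X).toNat =
      ((E : Set α) \ X).ncard +
        Nat.card (gr ends ((E : Set α) \ X)).ConnectedComponent - n ∧
    n ≤ ((E : Set α) \ X).ncard +
        Nat.card (gr ends ((E : Set α) \ X)).ConnectedComponent := by
  have hXE : (X : Set α) ⊆ M.E := by rw [← hE]; exact_mod_cast hX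
  have hEf : (M.E).Finite := by rw [← hE]; exact E.finite_toSet
  have hgr : M✶.E = M.E := rfl
  have hrep : ∀ Y : Set α, Y ⊆ M.E → M✶.eRk Y =
      (Module.finrank ℚ (Submodule.span ℚ (iv ends '' Y)) : ℕ∞) := fun Y hY =>
    eRk_rep M✶ (iv ends) hM Y hY (hEf.subset hY)
  have hrk : ∀ Y : Set α, Y ⊆ M.E → Module.finrank ℚ (Submodule.span ℚ (iv ends '' Y)) +
      Nat.card (gr ends Y).ConnectedComponent = n := fun Y hY => by
    have := rank_iv ends Y (hEf.subset hY)
    rwa [Fintype.card_fin] at this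
  have hle : ∀ Y : Set α, Y ⊆ M.E →
      Module.finrank ℚ (Submodule.span ℚ (iv ends '' Y)) ≤ Y.ncard := by
    intro Y hY
    have h1 := M✶.eRk_le_encard Y
    rw [hrep Y hY, ← (hEf.subset hY).cast_ncard_eq] at h1
    exact_mod_cast h1
  have hfin : ∀ Y : Set α, M.eRk Y ≠ ⊤ := by
    intro Y
    rw [Matroid.eRk_ne_top_iff]
    have : M.Finite := ⟨hEf⟩
    exact M.isRkFinite_set Y
  -- the dual rank formula
  have hdual : ∀ Y : Set α, Y ⊆ M.E → (M.eRk Y).toNat +
      Module.finrank ℚ (Submodule.span ℚ (iv ends '' M.E)) =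
      Module.finrank ℚ (Submodule.span ℚ (iv ends '' (M.E \ Y))) + Y.ncard := by
    intro Y hY
    have h1 := M✶.eRk_dual_add_eRank Y hY
    rw [Matroid.dual_dual, Matroid.eRank_def, hgr, hrep _ subset_rfl,
      hrep _ Set.sdiff_subset, ← (hEf.subset hY).cast_ncard_eq] at h1
    have h2 : ((M.eRk Y).toNat : ℕ∞) = M.eRk Y := ENat.natCast_toNat (hfin Y)
    rw [← h2] at h1
    exact_mod_cast h1
  have h1 := hdual M.E subset_rfl
  have h2 := hdual X hXE
  rw [Set.sdiff_self] at h1
  have h3 : Module.finrank ℚ (Submodule.span ℚ (iv ends '' (∅ : Set α))) = 0 := by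
    rw [Set.image_empty, Submodule.span_empty, finrank_bot]
  rw [h3] at h1
  have h4 := hle (M.E \ X) Set.sdiff_subset
  have h5 := hrk (M.E \ X) Set.sdiff_subset
  have h6 : (M.E \ (X : Set α)).ncard + (X : Set α).ncard = M.E.ncard :=
    Set.ncard_sdiff_add_ncard_of_subset hXE hEf
  rw [hE]
  omega

theorem sSup_rank {α : Type*} (M : Matroid α) (hM : M.Finite) (X : Set α) :
    sSup {n : ℕ | ∃ I ⊆ X, M.Indep I ∧ I.ncard = n} = (M.eRk X).toNat := by
  obtain ⟨J, hJ⟩ := M.exists_isBasis' X
  have hEf : (M.E).Finite := hM.ground_finite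
  have hJf : J.Finite := hEf.subset hJ.indep.subset_ground
  have h1 : M.eRk X = (J.ncard : ℕ∞) := by
    rw [hJ.eRk_eq_encard, hJf.cast_ncard_eq]
  rw [h1, ENat.toNat_natCast]
  apply IsGreatest.csSup_eq
  refine ⟨⟨J, hJ.subset, hJ.indep, rfl⟩, ?_⟩
  rintro n ⟨I, hIX, hI, rfl⟩
  have h2 := hI.encard_le_eRk_of_subset hIX
  rw [h1, ← (hEf.subset hI.subset_ground).cast_ncard_eq] at h2
  exact_mod_cast h2

universe u

theorem cographic : ∃ d : ℝ, ∀ (α : Type u) (M : Matroid α) (n : ℕ) (ends : α → Fin n × Fin n),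
    (∀ I : Set α, M✶.Indep I ↔ (I ⊆ M.E ∧ LinearIndependent ℚ (fun x : I => iv ends x.1))) →
    (∀ e ∈ M.E, M.Indep {e}) →
    ∀ E : Finset α, (E : Set α) = M.E → ∀ x : ℝ, d < x →
      0 < ∑ X ∈ E.powerset, (-1 : ℝ) ^ X.card * x ^ ((M.eRk M.E).toNat - (M.eRk X).toNat) := by
  classical
  obtain ⟨d, hd⟩ := Pool.Agent.H753R2.FR.D6b.flow_pos_ends
  refine ⟨d, fun α M n ends hM hloop E hE x hx => ?_⟩
  set k := E.card with hk
  let j : Fin k ↪ α := ⟨fun i => (E.equivFin.symm i : α), fun a b hab =>
    E.equivFin.symm.injective (Subtype.ext hab)⟩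
  have hjE : ∀ i, j i ∈ E := fun i => (E.equivFin.symm i).2
  have hmap : (univ : Finset (Fin k)).map j = E := by
    ext a
    rw [mem_map]
    constructor
    · rintro ⟨i, -, rfl⟩
      exact hjE i
    · intro ha
      refine ⟨E.equivFin ⟨a, ha⟩, mem_univ _, ?_⟩
      show ((E.equivFin.symm (E.equivFin ⟨a, ha⟩) : E) : α) = a
      rw [Equiv.symm_apply_apply]
  have hEf : (M.E).Finite := by rw [← hE]; exact E.finite_toSet
  -- the terms of the sum
  have key : ∀ A : Finset (Fin k), (M.eRk M.E).toNat - (M.eRk ((E \ A.map j : Finset α) : Set α)).toNat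
      = A.card + Nat.card (SimpleGraph.fromRel (fun u v : Fin n =>
        ∃ f ∈ A, (fun i => ends (j i)) f = (u, v))).ConnectedComponent - n ∧
      n ≤ A.card + Nat.card (SimpleGraph.fromRel (fun u v : Fin n =>
        ∃ f ∈ A, (fun i => ends (j i)) f = (u, v))).ConnectedComponent := by
    intro A
    have h1 := char_eq M E hE ends hM (E \ A.map j) sdiff_subset
    have hAE : A.map j ⊆ E := by
      rw [← hmap]
      exact map_subset_map.2 (subset_univ A)
    have h2 : (E : Set α) \ ((E \ A.map j : Finset α) : Set α) = ((A.map j : Finset α) : Set α) := by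
      rw [← coe_sdiff, Finset.sdiff_sdiff_eq_self hAE]
    rw [h2, Set.ncard_coe_finset, card_map, ← gr_map] at h1
    exact h1
  have hbr : ∀ e : Fin k,
      Nat.card (SimpleGraph.fromRel
          (fun u v : Fin n => ∃ f ∈ (Finset.univ : Finset (Fin k)).erase e,
            (fun i => ends (j i)) f = (u, v))).ConnectedComponent
        = Nat.card (SimpleGraph.fromRel
          (fun u v : Fin n => ∃ f : Fin k, (fun i => ends (j i)) f = (u, v))).ConnectedComponent := by
    intro e
    have h0 : (SimpleGraph.fromRel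
          (fun u v : Fin n => ∃ f : Fin k, (fun i => ends (j i)) f = (u, v))) =
        SimpleGraph.fromRel (fun u v : Fin n => ∃ f ∈ (Finset.univ : Finset (Fin k)),
          (fun i => ends (j i)) f = (u, v)) := by
      congr 1
      funext u v
      simp
    rw [h0]
    have h1 := key univ
    have h2 := key (univ.erase e)
    have e1 : E \ (univ : Finset (Fin k)).map j = ∅ := by
      rw [hmap, sdiff_self, bot_eq_empty]
    have e2 : E \ ((univ : Finset (Fin k)).erase e).map j = {j e} := by
      rw [map_erase, hmap, sdiff_erase (hjE e), sdiff_self]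
      rfl
    have hje : j e ∈ M.E := by rw [← hE]; exact_mod_cast hjE e
    have e3 : (M.eRk ({j e} : Set α)).toNat = 1 := by
      rw [(hloop _ hje).eRk_eq_encard, Set.encard_singleton]
      rfl
    rw [e1, coe_empty, Matroid.eRk_empty] at h1
    rw [e2, coe_singleton, e3, card_erase_of_mem (mem_univ e)] at h2
    have h3 : 1 ≤ (M.eRk M.E).toNat := by
      rw [← e3]
      apply ENat.toNat_le_toNat (M.eRk_mono (Set.singleton_subset_iff.2 hje))
      rw [Matroid.eRk_ne_top_iff]
      have : M.Finite := ⟨hEf⟩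
      exact M.isRkFinite_set _
    have h4 : (univ : Finset (Fin k)).card = k := by rw [card_univ, Fintype.card_fin]
    have h5 : 1 ≤ k := by
      have := e.2
      omega
    rw [h4] at h1 h2
    have h6 : (0 : ℕ∞).toNat = 0 := rfl
    rw [h6] at h1
    omega
  have hpos := hd n k (fun i => ends (j i)) hbr x hx.le
  refine lt_of_lt_of_eq hpos ?_
  refine Finset.sum_nbij' (fun A => E \ A.map j) (fun X => univ.filter (fun i => j i ∉ X))
    (fun A _ => mem_powerset.2 sdiff_subset) (fun X _ => mem_powerset.2 (subset_univ _)) ?_ ?_ ?_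
  · intro A _
    ext i
    rw [mem_filter, mem_sdiff, mem_map]
    constructor
    · rintro ⟨-, h⟩
      by_contra hi
      apply h
      refine ⟨hjE i, ?_⟩
      rintro ⟨a, ha, hai⟩
      rw [j.injective hai] at ha
      exact hi ha
    · intro hi
      exact ⟨mem_univ _, fun h => h.2 ⟨i, hi, rfl⟩⟩
  · intro X hX
    rw [mem_powerset] at hX
    ext a
    rw [mem_sdiff, mem_map]
    constructor
    · rintro ⟨haE, h⟩
      by_contra haX
      apply h
      rw [← hmap, mem_map] at haE
      obtain ⟨i, -, rfl⟩ := haE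
      exact ⟨i, mem_filter.2 ⟨mem_univ _, haX⟩, rfl⟩
    · intro haX
      refine ⟨hX haX, ?_⟩
      rintro ⟨i, hi, rfl⟩
      exact (mem_filter.1 hi).2 haX
  · intro A _
    have hAE : A.map j ⊆ E := by
      rw [← hmap]
      exact map_subset_map.2 (subset_univ A)
    rw [(key A).1, card_sdiff_of_subset hAE, card_map]

end Pool.Agent.H972R2.CG
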